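import Pool.Agent.Helper51.Moser.Final

/-!
# Moser's problem on sets with common pair sums: all exponents but four

For every `k ≥ 4` except possibly `k = 5, 7, 9, 13`, the largest number of distinct sets of
`2 ^ k` integers sharing one multiset of pair sums is exactly two.

Outline for odd `k`. Put `n = k + 1`. The sets can be centred; `f_X (θ) = ∑ cos (x θ)`. For a pair
the difference `f_X - f_Y` is a product of cyclotomic polynomials, so
`log (f_X + f_Y) = ∑ ε_w log (2 cos (w θ / 2))`. For three sets the difference of two such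
logarithms vanishes to high order at `0` and at the `l ^ s`-division points, with orders which are
the exponents of the cyclotomic factors of `f_X - f_Z`. Nonvanishing of Dirichlet `L`-values turns
this into congruences, and for every prime `l ≥ 5` one obtains
`v_l (T_n) ≤ v_l (n!) + v_l (2 ^ n - 1)`, where `T_n` is the tangent number. This is impossible
for `n = 12` and all even `n ≥ 16`.
-/

namespace Pool.Agent.Results.MP_e4b855_nt.AllButFourExponents

/-- The multiset of the sums of the two-element subsets of a finite set of integers. -/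
def pairSums (X : Finset ℤ) : Multiset ℤ :=
  (X.powersetCard 2).val.map (fun s => ∑ x ∈ s, x)

/-- For every `k ≥ 4` other than `5`, `7`, `9` and `13`, the largest size of a family of sets of
`2 ^ k` integers with a common multiset of pair sums is exactly two. -/
theorem result (k : ℕ) (hk : 4 ≤ k) (h5 : k ≠ 5) (h7 : k ≠ 7) (h9 : k ≠ 9) (h13 : k ≠ 13) :
    IsGreatest {m : ℕ∞ | ∃ F : Set (Finset ℤ), (∀ X ∈ F, X.card = 2 ^ k) ∧
      (∀ X ∈ F, ∀ Y ∈ F, pairSums X = pairSums Y) ∧ F.encard = m} 2 := by
  have hps : pairSums = Pool.Agent.Helper51.Moser.pairSums := rfl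
  constructor
  · obtain ⟨A, B, hAB, hA, hB, h⟩ := Pool.Agent.Helper51.Moser.EvenPart.exists_pair k (by omega)
    rw [← hps] at h
    refine ⟨{A, B}, ?_, ?_, Set.encard_pair hAB⟩
    · rintro X (rfl | rfl)
      · exact hA
      · exact hB
    · rintro X (rfl | rfl) Y (rfl | rfl)
      · rfl
      · exact h
      · exact h.symm
      · rfl
  · rintro m ⟨F, hF1, hF2, rfl⟩
    by_contra hlt
    rw [not_le] at hlt
    have h3 : (3 : ℕ∞) ≤ F.encard := Order.add_one_le_of_lt hlt
    obtain ⟨t, htF, ht⟩ := Set.exists_subset_encard_eq h3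
    obtain ⟨X, Y, Z, hXY, hXZ, hYZ, rfl⟩ := Set.encard_eq_three.mp ht
    have hX : X ∈ F := htF (by simp)
    have hY : Y ∈ F := htF (by simp)
    have hZ : Z ∈ F := htF (by simp)
    refine Pool.Agent.Helper51.Moser.no_three hk ?_ (hF1 X hX) (hF1 Y hY) (hF1 Z hZ) hXY hXZ hYZ
      (hF2 X hX Y hY) (hF2 X hX Z hZ)
    simp [h5, h7, h9, h13]

end Pool.Agent.Results.MP_e4b855_nt.AllButFourExponents
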